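import Pool.Agent.Helper7.PN.Defs

/-!
# Rational Hodge structures: the part without holomorphic forms and the quotient by it
-/

set_option autoImplicit false

namespace Pool.Agent.Hodge7

open Pool.Agent.Hodge81 Module

variable {n : ℕ} {A B : Type*} [Ring A] [Algebra ℂ A] [Module ℚ A]
  [Ring B] [Algebra ℂ B] [Module ℚ B] {X : HodgeRing n A} {Y : HodgeRing n B}

/-- `V` is a rational sub Hodge structure: its complex span is the sum of its parts of type
`(p, q)` -/
def IsSubHodge (X : HodgeRing n A) (V : Submodule ℚ A) : Prop :=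
  Submodule.span ℂ (V : Set A) ≤ ⨆ x : ℕ × ℕ, Submodule.span ℂ (V : Set A) ⊓ X.H x.1 x.2

/-- `N^j(X)`: the largest rational sub Hodge structure of `H^j(X, ℚ)` without part of type
`(0, j)` -/
def RationalCohomology.coniveau (R : RationalCohomology X) (j : ℕ) : Submodule ℚ A :=
  sSup {V | V ≤ R.H j ∧ IsSubHodge X V ∧ Submodule.span ℂ (V : Set A) ⊓ X.H 0 j = ⊥}

/-- `m` is a morphism of rational Hodge structures from `H^j(Y)` to `H^j(X)` -/
structure IsMor (R : RationalCohomology X) (S : RationalCohomology Y) (j : ℕ)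
    (m : B →ₗ[ℂ] A) : Prop where
  type : ∀ p q, p + q = j → ∀ b ∈ Y.H p q, m b ∈ X.H p q
  rational : ∀ b ∈ S.H j, m b ∈ R.H j

/-- the rational Hodge structures `H^j(Y, ℚ) / N^j(Y)` and `H^j(X, ℚ) / N^j(X)` are isomorphic:
a morphism `m` of rational Hodge structures from `H^j(Y)` to `H^j(X)` induces a bijection -/
def FormsIso (R : RationalCohomology X) (S : RationalCohomology Y) (j : ℕ) : Prop :=
  ∃ m : B →ₗ[ℂ] A, IsMor R S j m ∧ (∀ b ∈ S.H j, m b ∈ R.coniveau j ↔ b ∈ S.coniveau j) ∧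
    ∀ a ∈ R.H j, ∃ b ∈ S.H j, a - m b ∈ R.coniveau j

end Pool.Agent.Hodge7
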