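import Pool.Agent.Helper7.PN2.Niv
import Pool.Agent.Helper87.RF.Total

/-!
# The morphisms of rational Hodge structures given by a derived equivalence
-/

set_option autoImplicit false

namespace Pool.Agent.Hodge7

open Pool.Agent.Hodge81 Module Complex Polynomial

section deg

variable {n : ℕ} {A : Type*} [Ring A] [Algebra ℂ A] (X : HodgeRing n A)

/-- the component of degree `j` -/
noncomputable def degk (j : ℕ) : A →ₗ[ℂ] A := ∑ p ∈ Finset.range (j + 1), X.proj p (j - p)

theorem degk_of_mem {j p q : ℕ} {a : A} (ha : a ∈ X.H p q) :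
    degk X j a = if p + q = j then a else 0 := by
  unfold degk
  rw [LinearMap.sum_apply]
  simp only [X.proj_of_mem _ _ ha]
  split_ifs with h
  · rw [Finset.sum_eq_single p]
    · rw [if_pos]
      rw [← h, Nat.add_sub_cancel_left]
    · intro p' _ hne
      rw [if_neg]
      intro h'
      simp only [Prod.mk.injEq] at h'
      exact hne h'.1.symm
    · intro h'
      exact absurd (Finset.mem_range.2 (by omega)) h'
  · refine Finset.sum_eq_zero fun p' hp' => ?_
    rw [if_neg]
    intro h'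
    simp only [Prod.mk.injEq] at h'
    rw [Finset.mem_range] at hp'
    omega

theorem degk_of_degree {j k : ℕ} {a : A} (ha : a ∈ degree X k) :
    degk X j a = if k = j then a else 0 := by
  refine degree_induct X (P := fun a => degk X j a = if k = j then a else 0)
    (fun p q hpq a ha => ?_) (by simp) (fun a b h1 h2 => ?_) ha
  · rw [degk_of_mem X ha, hpq]
  · rw [map_add, h1, h2]
    split_ifs <;> simp

theorem degk_column {j p q : ℕ} (hpq : p + q = j) {a : A} (ha : a ∈ X.column ((p : ℤ) - q)) :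
    degk X j a ∈ X.H p q := by
  refine X.column_induct (P := fun a => degk X j a ∈ X.H p q) (fun p' q' h a' ha' => ?_)
    (by rw [map_zero]; exact zero_mem _)
    (fun a b h1 h2 => by rw [map_add]; exact add_mem h1 h2) ha
  rw [degk_of_mem X ha']
  split_ifs with h3
  · have e1 : p' = p := by omega
    have e2 : q' = q := by omega
    rw [← e1, ← e2]
    exact ha'
  · exact zero_mem _

end deg

section rat

variable {n : ℕ} {A B : Type*} [Ring A] [Algebra ℂ A] [Module ℚ A]
  [Ring B] [Algebra ℂ B] [Module ℚ B] {X : HodgeRing n A} {Y : HodgeRing n B}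
  {R : RationalCohomology X} {S : RationalCohomology Y}

theorem RationalCohomology.degk_mem (R : RationalCohomology X) (j : ℕ) {a : A}
    (ha : a ∈ R.classes) : degk X j a ∈ R.H j := by
  unfold classes at ha
  induction ha using Submodule.iSup_induction' with
  | mem k a ha =>
    rw [degk_of_degree X (R.le_degree ha)]
    split_ifs with h
    · exact h ▸ ha
    · exact zero_mem _
  | zero => rw [map_zero]; exact zero_mem _
  | add a c _ _ h1 h2 => rw [map_add]; exact add_mem h1 h2

/-- for `j = 2` the sub Hodge structure is spanned by the classes of divisors -/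
theorem RationalCohomology.coniveau_two (R : RationalCohomology X) :
    R.coniveau 2 = R.divisors := by
  apply le_antisymm
  · intro v hv
    obtain ⟨h1, -, h3⟩ := R.coniveau_spec 2
    refine ⟨h1 hv, ?_⟩
    obtain ⟨a0, k0, a1, k1, a2, k2, he⟩ := exists_parts X (R.le_degree (h1 hv))
    have e1 : a2 = 0 := by
      have := h3 v hv
      rw [he, map_add, map_add, X.proj_of_mem 0 2 k0, X.proj_of_mem 0 2 k1,
        X.proj_of_mem 0 2 k2] at this
      simpa using this
    have e2 : a0 = 0 := by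
      have h5 : X.proj 2 0 v = 0 := by
        rw [← R.real 2 v (h1 hv), he, e1, add_zero, map_add, map_add,
          X.proj_of_mem 2 0 (X.conj_mem _ _ _ k0), X.proj_of_mem 2 0 (X.conj_mem _ _ _ k1)]
        simp
      rw [he, map_add, map_add, X.proj_of_mem 2 0 k0, X.proj_of_mem 2 0 k1,
        X.proj_of_mem 2 0 k2] at h5
      simpa using h5
    show v ∈ X.H 1 1
    rw [he, e1, e2, zero_add, add_zero]
    exact k1
  · refine R.le_coniveau inf_le_left ?_ ?_
    · intro v hv p q
      rw [X.proj_of_mem p q (p' := 1) (q' := 1) hv.2]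
      split_ifs
      · exact Submodule.subset_span hv
      · exact Submodule.zero_mem _
    · intro v hv
      rw [X.proj_of_mem 0 2 (p' := 1) (q' := 1) hv.2, if_neg (by simp)]

/-- for `j = 1` it is zero -/
theorem RationalCohomology.coniveau_one (R : RationalCohomology X) : R.coniveau 1 = ⊥ := by
  rw [eq_bot_iff]
  intro v hv
  obtain ⟨h1, -, h3⟩ := R.coniveau_spec 1
  have hdeg : ∀ a ∈ degree X 1, X.proj 0 1 a + X.proj 1 0 a = a := by
    intro a ha
    refine degree_induct X (P := fun a => X.proj 0 1 a + X.proj 1 0 a = a)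
      (fun p q hpq a ha => ?_) (by simp) (fun a b h1 h2 => ?_) ha
    · rw [X.proj_of_mem _ _ ha, X.proj_of_mem _ _ ha]
      obtain ⟨rfl, rfl⟩ | ⟨rfl, rfl⟩ : (p = 0 ∧ q = 1) ∨ (p = 1 ∧ q = 0) := by omega
      · simp
      · simp
    · rw [map_add, map_add]
      calc X.proj 0 1 a + X.proj 0 1 b + (X.proj 1 0 a + X.proj 1 0 b)
          = (X.proj 0 1 a + X.proj 1 0 a) + (X.proj 0 1 b + X.proj 1 0 b) := by abel
        _ = a + b := by rw [h1, h2]
  have h4 := hdeg v (R.le_degree (h1 hv))
  rw [h3 v hv, zero_add] at h4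
  have h5 : v ∈ X.H 1 0 := by
    rw [← h4]
    exact proj_mem X 1 0 v
  have h6 : X.conj v ∈ X.H 0 1 := X.conj_mem _ _ _ h5
  rw [R.real 1 v (h1 hv)] at h6
  have h7 := X.proj_of_mem 0 1 h6
  rw [if_pos rfl, h3 v hv] at h7
  exact (Submodule.mem_bot ℚ).2 h7.symm

variable {phi : A ≃ₗ[ℂ] B}

theorem isMor_ev (hM : IsMukaiIsometry X Y phi) (hR : IsRational R S phi) (q : ℚ) (j : ℕ) :
    IsMor R S j (degk X j ∘ₗ ev X phi (q : ℂ)) :=
  ⟨fun _ _ hpr _ hb => degk_column X hpr (ev_column hM _ (Y.mem_column rfl hb)),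
    fun _ hb => R.degk_mem j (R.ev_mem S hR q (S.mem_classes hb))⟩

theorem isMor_symm (hM : IsMukaiIsometry X Y phi) (hR : IsRational R S phi) (j : ℕ) :
    IsMor R S j (degk X j ∘ₗ phi.symm.toLinearMap) := by
  refine ⟨fun p r hpr b hb => ?_, fun b hb => ?_⟩
  · refine degk_column X hpr ?_
    have h1 : b ∈ Y.column ((p : ℤ) - r) := Y.mem_column rfl hb
    rw [← hM.column] at h1
    obtain ⟨a, ha, he⟩ := h1
    have h2 : phi.symm b = a := by
      rw [← he]
      exact phi.symm_apply_apply a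
    show phi.symm b ∈ _
    rw [h2]
    exact ha
  · refine R.degk_mem j ?_
    show phi.symm b ∈ _
    rw [hR, LinearEquiv.apply_symm_apply]
    exact S.mem_classes hb

end rat

section inj

variable {n : ℕ} {A B : Type*} [Ring A] [Algebra ℂ A] [Ring B] [Algebra ℂ B]
  {X : HodgeRing n A} {Y : HodgeRing n B} {P : PolyvectorAction X}
  {Q : PolyvectorAction Y} {phi : A ≃ₗ[ℂ] B}

theorem inj_top (hM : IsMukaiIsometry X Y phi) (b : B) (hb : b ∈ Y.H 0 n)
    (h : (degk X n ∘ₗ phi.symm.toLinearMap) b = 0) : b = 0 := by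
  have h1 : b ∈ Y.column (((0 : ℕ) : ℤ) - n) := Y.mem_column rfl hb
  rw [← hM.column] at h1
  obtain ⟨a, ha, he⟩ := h1
  have h2 : phi.symm b = a := by
    rw [← he]
    exact phi.symm_apply_apply a
  have h3 : a ∈ X.H 0 n := by
    refine X.column_induct (P := fun a => a ∈ X.H 0 n) (fun p q hpq a' ha' => ?_)
      (zero_mem _) (fun a b h1 h2 => add_mem h1 h2) ha
    by_cases hq : n < q
    · rw [X.bounded p q (Or.inr hq), Submodule.mem_bot] at ha'
      rw [ha']
      exact zero_mem _
    · have e1 : p = 0 := by omega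
      have e2 : q = n := by omega
      rw [e1, e2] at ha'
      exact ha'
  have h4 : degk X n a = 0 := by
    rw [← h2]
    exact h
  rw [degk_of_mem X h3, if_pos (by omega)] at h4
  rw [h4, LinearEquiv.symm_apply_eq, map_zero] at h2
  exact h2

variable [FiniteDimensional ℂ A] [FiniteDimensional ℂ B]

/-- the evaluation at `exp (t omega)` is injective on `H^{0,j}` for some rational `t` -/
theorem exists_rat_inj' (h : IsHochschildIso P Q phi) {j : ℕ} (h0j : X.h 0 j = Y.h 0 j)
    (hI : ∀ y ∈ Y.H 0 j, ev X phi I y = 0 → y = 0) :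
    ∃ q : ℚ, ∀ y ∈ Y.H 0 j, ev X phi (q : ℂ) y = 0 → y = 0 := by
  classical
  let e : X.H 0 j ≃ₗ[ℂ] Y.H 0 j := LinearEquiv.ofFinrankEq _ _ h0j
  -- the endomorphism of `H^{0,j}(Y)` and its matrix
  let f : ℂ → (Y.H 0 j →ₗ[ℂ] Y.H 0 j) := fun t => e.toLinearMap ∘ₗ
    (LinearMap.codRestrict (X.H 0 j) ((ev X phi t).domRestrict (Y.H 0 j))
      (fun y => ev_mem h t y.2))
  let b := Module.finBasis ℂ (Y.H 0 j)
  have hc : ∀ i, ∃ c : A →ₗ[ℂ] ℂ, ∀ x : X.H 0 j, c x = b.coord i (e x) := by
    intro i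
    obtain ⟨g, hg⟩ := LinearMap.exists_extend (p := X.H 0 j) ((b.coord i) ∘ₗ e.toLinearMap)
    exact ⟨g, fun x => LinearMap.congr_fun hg x⟩
  choose c hc using hc
  have hp : ∀ i l, ∃ p : ℂ[X], ∀ t : ℂ, c i (ev X phi t (b l : B)) = p.eval t := fun i l =>
    exists_poly X phi (c i) (b l : B)
  choose p hp using hp
  let M : Matrix _ _ ℂ[X] := Matrix.of p
  have hM : ∀ t : ℂ, LinearMap.toMatrix b b (f t) = (Polynomial.evalRingHom t).mapMatrix M := by
    intro t
    ext i l
    rw [LinearMap.toMatrix_apply, RingHom.mapMatrix_apply, Matrix.map_apply]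
    change _ = (p i l).eval t
    rw [← hp i l t]
    exact (hc i ⟨ev X phi t (b l : B), ev_mem h t (b l).2⟩).symm
  have hdet : ∀ t : ℂ, LinearMap.det (f t) = M.det.eval t := by
    intro t
    rw [← LinearMap.det_toMatrix b, hM, ← RingHom.map_det]
    rfl
  have hker : ∀ t : ℂ, (∀ y ∈ Y.H 0 j, ev X phi t y = 0 → y = 0) ↔ LinearMap.det (f t) ≠ 0 := by
    intro t
    rw [← isUnit_iff_ne_zero, ← LinearMap.isUnit_iff_isUnit_det, LinearMap.isUnit_iff_ker_eq_bot,
      LinearMap.ker_eq_bot']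
    constructor
    · intro h1 y hy
      have h2 : ev X phi t y = 0 := by
        have h3 := (LinearEquiv.map_eq_zero_iff e).1 hy
        exact congrArg Subtype.val h3
      exact Subtype.ext (h1 _ y.2 h2)
    · intro h1 y hy h2
      have h3 := h1 ⟨y, hy⟩ ((LinearEquiv.map_eq_zero_iff e).2 (Subtype.ext h2))
      exact congrArg Subtype.val h3
  have h1 := (hker I).1 hI
  rw [hdet] at h1
  have h2 : M.det ≠ 0 := by
    intro h3
    rw [h3, Polynomial.eval_zero] at h1
    exact h1 rfl
  obtain ⟨q, hq⟩ := exists_rat_eval_ne_zero h2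
  refine ⟨q, (hker q).2 ?_⟩
  rw [hdet]
  exact hq

omit [FiniteDimensional ℂ A] [FiniteDimensional ℂ B] in
theorem inj_ev (h : IsHochschildIso P Q phi) (t : ℂ) {j : ℕ}
    (ht : ∀ y ∈ Y.H 0 j, ev X phi t y = 0 → y = 0) (b : B) (hb : b ∈ Y.H 0 j)
    (h0 : (degk X j ∘ₗ ev X phi t) b = 0) : b = 0 := by
  refine ht b hb ?_
  have h1 := ev_mem h t hb
  have h2 : degk X j (ev X phi t b) = 0 := h0
  rw [degk_of_mem X h1, if_pos (by omega)] at h2
  exact h2

end inj

section main

universe u

variable {n : ℕ} {A B : Type u} [Ring A] [Algebra ℂ A] [Module ℚ A] [FiniteDimensional ℂ A]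
  [Ring B] [Algebra ℂ B] [Module ℚ B] [FiniteDimensional ℂ B] {X : HodgeRing n A}
  {Y : HodgeRing n B} {P : PolyvectorAction X} {Q : PolyvectorAction Y} {phi : A ≃ₗ[ℂ] B}
  {R : RationalCohomology X} {S : RationalCohomology Y}

omit [FiniteDimensional ℂ A] [FiniteDimensional ℂ B] in
theorem IsRational.symm (hR : IsRational R S phi) : IsRational S R phi.symm := fun b => by
  rw [hR, LinearEquiv.apply_symm_apply]

theorem formsIso_ev (h : IsHochschildIso P Q phi) (hM : IsMukaiIsometry X Y phi)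
    (hR : IsRational R S phi) {j : ℕ} (h0j : X.h 0 j = Y.h 0 j)
    (h1 : ∀ y ∈ Y.H 0 j, evalE X phi y = 0 → y = 0)
    (h2 : ∀ x ∈ X.H 0 j, evalE Y phi.symm x = 0 → x = 0) : FormsIso R S j := by
  obtain ⟨q, hq⟩ := exists_rat_inj' h h0j h1
  obtain ⟨q', hq'⟩ := exists_rat_inj' h.symm h0j.symm h2
  exact formsIso_of (isMor_ev hM hR q j) (inj_ev h _ hq)
    (isMor_ev hM.symm hR.symm q' j) (inj_ev h.symm _ hq')

theorem formsIso_main (h : IsHochschildIso P Q phi) (hM : IsMukaiIsometry X Y phi)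
    (hR : IsRational R S phi) {j : ℕ}
    (hj : j ≤ 2 ∨ n ≤ j ∨ (X.H 0 j ≤ X.genPart j ∧ Y.H 0 j ≤ Y.genPart j) ∨
      ∃ k, n ≤ k + 1 ∧ X.genPart k ≠ ⊥) : FormsIso R S j := by
  have hgood : GoodDegree X Y j := by
    rcases hj with h1 | h1 | h1 | h1
    · exact Or.inl h1
    · exact Or.inr (Or.inl (by omega))
    · exact Or.inr (Or.inr (Or.inl h1))
    · exact Or.inr (Or.inr (Or.inr h1))
  have h0j := forms_good h hM hgood
  have hgen : (X.H 0 j ≤ X.genPart j ∧ Y.H 0 j ≤ Y.genPart j) → FormsIso R S j := by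
    rintro ⟨hX, hY⟩
    exact formsIso_ev h hM hR h0j (fun y hy h0 => evalE_inj_lowPart h j (hY hy) h0)
      (fun x hx h0 => evalE_inj_lowPart h.symm j (hX hx) h0)
  rcases hj with h2 | htop | hgen' | ⟨k, hk, hne⟩
  · exact hgen ⟨H_le_genPart X h2, H_le_genPart Y h2⟩
  · rcases Nat.lt_or_ge n j with hnj | hnj
    · refine formsIso_of (m := degk X j ∘ₗ phi.symm.toLinearMap)
        (m' := degk Y j ∘ₗ phi.symm.symm.toLinearMap) (isMor_symm hM hR j) ?_
        (isMor_symm hM.symm hR.symm j) ?_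
      · intro b hb _
        rwa [Y.bounded 0 j (Or.inr hnj), Submodule.mem_bot] at hb
      · intro b hb _
        rwa [X.bounded 0 j (Or.inr hnj), Submodule.mem_bot] at hb
    · obtain rfl : j = n := by omega
      exact formsIso_of (isMor_symm hM hR j) (inj_top hM) (isMor_symm hM.symm hR.symm j)
        (inj_top hM.symm)
  · exact hgen hgen'
  · have hne' : Y.genPart k ≠ ⊥ := by
      intro h0
      have h3 := lowPart_finrank h P.eval P.kerOne P.kerTwo Q.eval Q.kerOne Q.kerTwo k
      rw [← genPart_eq_lowPart, ← genPart_eq_lowPart, h0, finrank_bot] at h3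
      exact hne (Submodule.finrank_eq_zero.1 h3)
    exact formsIso_ev h hM hR h0j (fun y hy h0 => evalE_inj_reach h hM hk hne j hy h0)
      (fun x hx h0 => evalE_inj_reach h.symm hM.symm hk hne' j hx h0)

end main

end Pool.Agent.Hodge7
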