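import Pool.Agent.Helper7.PN2.Rat
import Pool.Agent.Helper7.PN2.Defs

/-!
# The largest sub Hodge structure without holomorphic forms, and the quotient by it
-/

set_option autoImplicit false

namespace Pool.Agent.Hodge7

open Pool.Agent.Hodge81 Module Complex

theorem indep_sum {k M M' ι κ : Type*} [Field k] [AddCommGroup M] [Module k M] [AddCommGroup M']
    [Module k M'] [Fintype ι] [Fintype κ] (f : M →ₗ[k] M') (W : Submodule k M)
    (N : Submodule k M') (h : ∀ x ∈ W, f x ∈ N → x = 0) (w : Basis ι k W) (ν : Basis κ k N) :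
    LinearIndependent k (Sum.elim (fun i => f (w i)) (fun l => (ν l : M')) : ι ⊕ κ → M') := by
  rw [Fintype.linearIndependent_iff]
  intro g hg
  rw [Fintype.sum_sum_type] at hg
  simp only [Sum.elim_inl, Sum.elim_inr] at hg
  obtain ⟨s, hs⟩ : ∃ s : W, ∑ i, g (Sum.inl i) • w i = s := ⟨_, rfl⟩
  obtain ⟨t, ht⟩ : ∃ t : N, ∑ l, g (Sum.inr l) • ν l = t := ⟨_, rfl⟩
  have h1 : f s = ∑ i, g (Sum.inl i) • f (w i) := by
    rw [← hs, Submodule.coe_sum, map_sum]
    refine Finset.sum_congr rfl fun i _ => ?_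
    rw [Submodule.coe_smul, map_smul]
  have h2 : (t : M') = ∑ l, g (Sum.inr l) • (ν l : M') := by
    rw [← ht, Submodule.coe_sum]
    refine Finset.sum_congr rfl fun i _ => ?_
    rw [Submodule.coe_smul]
  rw [← h1, ← h2] at hg
  have h3 : f s = -(t : M') := eq_neg_of_add_eq_zero_left hg
  have h4 : (s : M) = 0 := h s s.2 (by rw [h3]; exact neg_mem t.2)
  have h5 : s = 0 := Subtype.ext h4
  have h6 : t = 0 := by
    rw [h4, map_zero, zero_add] at hg
    exact Subtype.ext hg
  rw [h5] at hs
  rw [h6] at ht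
  have g1 := Fintype.linearIndependent_iff.1 w.linearIndependent (fun i => g (Sum.inl i)) hs
  have g2 := Fintype.linearIndependent_iff.1 ν.linearIndependent (fun l => g (Sum.inr l)) ht
  rintro (i | l)
  · exact g1 i
  · exact g2 l

/-- a vector of a complement is a combination of a basis of it -/
theorem mem_span_basis {k V ι : Type*} [Field k] [AddCommGroup V] [Module k V] [Fintype ι]
    (M : Submodule k V) (W : Submodule k M) (w : Basis ι k W) {x : M} (hx : x ∈ W) :
    (x : V) ∈ Submodule.span k (Set.range fun i => ((w i : M) : V)) := by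
  have h2 : (⟨x, hx⟩ : W) = ∑ i, w.repr ⟨x, hx⟩ i • w i := (w.sum_repr _).symm
  have h3 : (x : V) = ∑ i, w.repr ⟨x, hx⟩ i • ((w i : M) : V) := by
    have h4 := congrArg (fun z : W => ((z : M) : V)) h2
    simp only [Submodule.coe_sum, Submodule.coe_smul] at h4
    exact h4
  rw [h3]
  exact Submodule.sum_mem _ fun i _ => Submodule.smul_mem _ _ (Submodule.subset_span ⟨i, rfl⟩)

/-- rational spans are contained in complex spans -/
theorem span_rat_le {V : Type*} [AddCommGroup V] [Module ℂ V] [Module ℚ V] {s : Set V} {x : V}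
    (hx : x ∈ Submodule.span ℚ s) : x ∈ Submodule.span ℂ s := by
  induction hx using Submodule.span_induction with
  | mem x hx => exact Submodule.subset_span hx
  | zero => exact Submodule.zero_mem _
  | add a b _ _ ha hb => exact Submodule.add_mem _ ha hb
  | smul q a _ ha =>
    rw [← Rat.cast_smul_eq_qsmul ℂ]
    exact Submodule.smul_mem _ _ ha

section

variable {n : ℕ} {A B : Type*} [Ring A] [Algebra ℂ A] [Module ℚ A]
  [Ring B] [Algebra ℂ B] [Module ℚ B] {X : HodgeRing n A} {Y : HodgeRing n B}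

theorem proj_span {V : Submodule ℚ A} {p q : ℕ}
    (h : ∀ v ∈ V, X.proj p q v ∈ Submodule.span ℂ (V : Set A)) {v : A}
    (hv : v ∈ Submodule.span ℂ (V : Set A)) : X.proj p q v ∈ Submodule.span ℂ (V : Set A) := by
  induction hv using Submodule.span_induction with
  | mem x hx => exact h x hx
  | zero => rw [map_zero]; exact Submodule.zero_mem _
  | add a b _ _ ha hb => rw [map_add]; exact Submodule.add_mem _ ha hb
  | smul c a _ ha => rw [map_smul]; exact Submodule.smul_mem _ _ ha

omit [Module ℚ A] in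
theorem proj_mem (X : HodgeRing n A) (p q : ℕ) (a : A) : X.proj p q a ∈ X.H p q := by
  refine X.induct (P := fun a => X.proj p q a ∈ X.H p q) (fun p' q' a ha => ?_) (by simp)
    (fun a b ha hb => by rw [map_add]; exact Submodule.add_mem _ ha hb) a
  rw [X.proj_of_mem p q ha]
  split_ifs with hpq
  · have e1 := (Prod.ext_iff.1 hpq).1
    have e2 := (Prod.ext_iff.1 hpq).2
    simp only at e1 e2
    subst e1 e2
    exact ha
  · exact Submodule.zero_mem _

omit [Module ℚ A] in
/-- a vector is the sum of its components -/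
theorem sum_proj (X : HodgeRing n A) (a : A) :
    a = ∑ x ∈ Finset.range (n + 1) ×ˢ Finset.range (n + 1), X.proj x.1 x.2 a := by
  refine X.induct (P := fun a => a =
    ∑ x ∈ Finset.range (n + 1) ×ˢ Finset.range (n + 1), X.proj x.1 x.2 a)
    (fun p q a ha => ?_) (by simp) (fun a b ha hb => ?_) a
  · by_cases hpq : n < p ∨ n < q
    · rw [X.bounded p q hpq, Submodule.mem_bot] at ha
      rw [ha]
      simp
    · rw [Finset.sum_eq_single (p, q)]
      · rw [X.proj_of_mem p q ha, if_pos rfl]
      · intro x _ hx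
        rw [X.proj_of_mem x.1 x.2 ha, if_neg]
        intro h
        exact hx (h ▸ rfl)
      · intro h
        rw [Finset.mem_product, Finset.mem_range, Finset.mem_range] at h
        omega
  · simp only [map_add, Finset.sum_add_distrib]
    rw [← ha, ← hb]

theorem isSubHodge_iff {V : Submodule ℚ A} : IsSubHodge X V ↔
    ∀ v ∈ V, ∀ p q, X.proj p q v ∈ Submodule.span ℂ (V : Set A) := by
  constructor
  · intro h v hv p q
    have h1 := h (Submodule.subset_span hv)
    clear hv
    induction h1 using Submodule.iSup_induction' with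
    | mem x v hv =>
      rw [X.proj_of_mem p q (p' := x.1) (q' := x.2) hv.2]
      split_ifs
      · exact hv.1
      · exact Submodule.zero_mem _
    | zero => rw [map_zero]; exact Submodule.zero_mem _
    | add a b _ _ ha hb => rw [map_add]; exact Submodule.add_mem _ ha hb
  · intro h v hv
    rw [sum_proj X v]
    refine Submodule.sum_mem _ fun x _ => ?_
    refine Submodule.mem_iSup_of_mem x ⟨?_, proj_mem X _ _ v⟩
    exact proj_span (fun v hv => h v hv x.1 x.2) hv

theorem meet_iff {V : Submodule ℚ A} (h : IsSubHodge X V) (p q : ℕ) :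
    Submodule.span ℂ (V : Set A) ⊓ X.H p q = ⊥ ↔ ∀ v ∈ V, X.proj p q v = 0 := by
  constructor
  · intro h1 v hv
    have h2 : X.proj p q v ∈ Submodule.span ℂ (V : Set A) ⊓ X.H p q :=
      ⟨isSubHodge_iff.1 h v hv p q, proj_mem X p q v⟩
    rw [h1, Submodule.mem_bot] at h2
    exact h2
  · intro h1
    rw [eq_bot_iff]
    rintro v ⟨h2, h3⟩
    have h4 : X.proj p q v = 0 := by
      clear h3
      induction h2 using Submodule.span_induction with
      | mem x hx => exact h1 x hx
      | zero => exact map_zero _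
      | add a b _ _ ha hb => rw [map_add, ha, hb, add_zero]
      | smul c a _ ha => rw [map_smul, ha, smul_zero]
    rw [X.proj_of_mem p q h3, if_pos rfl] at h4
    rw [h4]
    exact Submodule.zero_mem _

namespace RationalCohomology

theorem coniveau_spec (R : RationalCohomology X) (j : ℕ) :
    R.coniveau j ≤ R.H j ∧ IsSubHodge X (R.coniveau j) ∧
      ∀ v ∈ R.coniveau j, X.proj 0 j v = 0 := by
  refine ⟨sSup_le fun V hV => hV.1, ?_, ?_⟩
  · rw [isSubHodge_iff]
    intro v hv p q
    have hv' := hv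
    unfold coniveau at hv'
    rw [sSup_eq_iSup'] at hv'
    induction hv' using Submodule.iSup_induction' with
    | mem V v' hv2 =>
      refine Submodule.span_mono ?_ (isSubHodge_iff.1 V.2.2.1 v' hv2 p q)
      exact le_sSup V.2
    | zero => rw [map_zero]; exact Submodule.zero_mem _
    | add a b ha hb h1 h2 =>
      rw [map_add]
      refine Submodule.add_mem _ (h1 ?_) (h2 ?_)
      · unfold coniveau
        rw [sSup_eq_iSup']
        exact ha
      · unfold coniveau
        rw [sSup_eq_iSup']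
        exact hb
  · intro v hv
    unfold coniveau at hv
    rw [sSup_eq_iSup'] at hv
    induction hv using Submodule.iSup_induction' with
    | mem V v hv => exact (meet_iff V.2.2.1 0 j).1 V.2.2.2 v hv
    | zero => rw [map_zero]
    | add a b _ _ h1 h2 => rw [map_add, h1, h2, add_zero]

theorem le_coniveau (R : RationalCohomology X) {j : ℕ} {V : Submodule ℚ A} (h1 : V ≤ R.H j)
    (h2 : ∀ v ∈ V, ∀ p q, X.proj p q v ∈ Submodule.span ℂ (V : Set A))
    (h3 : ∀ v ∈ V, X.proj 0 j v = 0) : V ≤ R.coniveau j :=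
  le_sSup ⟨h1, isSubHodge_iff.2 h2, (meet_iff (isSubHodge_iff.2 h2) 0 j).2 h3⟩

end RationalCohomology

variable {R : RationalCohomology X} {S : RationalCohomology Y} {j : ℕ} {m : B →ₗ[ℂ] A}

omit [Module ℚ A] in
theorem proj_degree {p q : ℕ} (h : p + q ≠ j) {a : A} (ha : a ∈ degree X j) :
    X.proj p q a = 0 := by
  refine degree_induct X (P := fun a => X.proj p q a = 0) (fun p' q' hpq a' ha' => ?_)
    (map_zero _) (fun a b h1 h2 => by rw [map_add, h1, h2, add_zero]) ha
  rw [X.proj_of_mem p q ha', if_neg]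
  intro h'
  simp only [Prod.mk.injEq] at h'
  omega

theorem IsMor.proj (hm : IsMor R S j m) {b : B} (hb : b ∈ degree Y j) (p q : ℕ) :
    X.proj p q (m b) = m (Y.proj p q b) := by
  refine degree_induct Y (P := fun b => X.proj p q (m b) = m (Y.proj p q b))
    (fun p' q' hpq b' hb' => ?_) (by simp) (fun a b h1 h2 => by
      rw [map_add, map_add, map_add, map_add, h1, h2]) hb
  rw [Y.proj_of_mem p q hb', X.proj_of_mem p q (hm.type p' q' hpq b' hb')]
  split_ifs
  · rfl
  · rw [map_zero]

theorem IsMor.map_coniveau (hm : IsMor R S j m) {b : B} (hb : b ∈ S.coniveau j) :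
    m b ∈ R.coniveau j := by
  obtain ⟨h1, h2, h3⟩ := S.coniveau_spec j
  rw [isSubHodge_iff] at h2
  have hle : (S.coniveau j).map (m.restrictScalars ℚ) ≤ R.coniveau j := by
    refine R.le_coniveau ?_ ?_ ?_
    · rintro _ ⟨b, hb, rfl⟩
      exact hm.rational b (h1 hb)
    · rintro _ ⟨b, hb, rfl⟩ p q
      show X.proj p q (m b) ∈ _
      rw [hm.proj (S.le_degree (h1 hb))]
      have h4 := Submodule.mem_map_of_mem (f := m) (h2 b hb p q)
      rw [Submodule.map_span] at h4
      exact h4
    · rintro _ ⟨b, hb, rfl⟩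
      show X.proj 0 j (m b) = 0
      rw [hm.proj (S.le_degree (h1 hb)), h3 b hb, map_zero]
  exact hle ⟨b, hb, rfl⟩

/-- the preimage of a rational subspace under a rational map -/
theorem IsMor.span_comap (hm : IsMor R S j m) {N : Submodule ℚ A} (hN : N ≤ R.H j) {y : B}
    (hy : y ∈ Submodule.span ℂ (S.H j : Set B)) (hmy : m y ∈ Submodule.span ℂ (N : Set A)) :
    y ∈ Submodule.span ℂ {b | b ∈ S.H j ∧ m b ∈ N} := by
  classical
  have := S.finite j
  have := R.finite j
  let V0 : Submodule ℚ (S.H j) := (N.comap (m.restrictScalars ℚ)).comap (S.H j).subtype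
  obtain ⟨W0, hW⟩ := Submodule.exists_isCompl V0
  have : Module.Free ℚ W0 := Module.Free.of_divisionRing ℚ W0
  let w := Module.finBasis ℚ W0
  let N0 : Submodule ℚ (R.H j) := N.comap (R.H j).subtype
  have : Module.Free ℚ N0 := Module.Free.of_divisionRing ℚ N0
  let ν := Module.finBasis ℚ N0
  let mQ : S.H j →ₗ[ℚ] R.H j := LinearMap.codRestrict (R.H j)
    ((m.restrictScalars ℚ).domRestrict (S.H j)) (fun b => hm.rational b b.2)
  have hu := indep_sum mQ W0 N0 (fun x hx hx2 => by
    have h1 : x ∈ V0 ⊓ W0 := ⟨hx2, hx⟩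
    rw [hW.inf_eq_bot, Submodule.mem_bot] at h1
    exact h1) w ν
  have huC := R.indep hu
  -- the decomposition of `y`
  have hdec : ∃ y1 ∈ Submodule.span ℂ {b | b ∈ S.H j ∧ m b ∈ N},
      ∃ y2 ∈ Submodule.span ℂ (Set.range fun i => ((w i : S.H j) : B)), y = y1 + y2 := by
    clear hmy
    induction hy using Submodule.span_induction with
    | mem b hb =>
      have h1 : (⟨b, hb⟩ : S.H j) ∈ V0 ⊔ W0 := by
        rw [hW.sup_eq_top]
        exact Submodule.mem_top
      obtain ⟨v, hv, x, hx, he⟩ := Submodule.mem_sup.1 h1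
      refine ⟨v, Submodule.subset_span ⟨v.2, hv⟩, x, span_rat_le (mem_span_basis _ W0 w hx), ?_⟩
      have h4 := congrArg (fun z : S.H j => (z : B)) he
      simp only [Submodule.coe_add] at h4
      exact h4.symm
    | zero => exact ⟨0, Submodule.zero_mem _, 0, Submodule.zero_mem _, by simp⟩
    | add a b _ _ ha hb =>
      obtain ⟨a1, h1, a2, h2, rfl⟩ := ha
      obtain ⟨b1, h3, b2, h4, rfl⟩ := hb
      exact ⟨a1 + b1, Submodule.add_mem _ h1 h3, a2 + b2, Submodule.add_mem _ h2 h4, by abel⟩
    | smul c a _ ha =>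
      obtain ⟨a1, h1, a2, h2, rfl⟩ := ha
      exact ⟨c • a1, Submodule.smul_mem _ _ h1, c • a2, Submodule.smul_mem _ _ h2, smul_add _ _ _⟩
  obtain ⟨y1, h1, y2, h2, rfl⟩ := hdec
  have h3 : m y1 ∈ Submodule.span ℂ (N : Set A) := by
    have h4 := Submodule.mem_map_of_mem (f := m) h1
    rw [Submodule.map_span] at h4
    refine Submodule.span_mono ?_ h4
    rintro _ ⟨b, hb, rfl⟩
    exact hb.2
  have h5 : m y2 ∈ Submodule.span ℂ (N : Set A) := by
    rw [map_add] at hmy
    exact (Submodule.add_mem_iff_right _ h3).1 hmy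
  have h6 : (N : Set A) ⊆ Submodule.span ℂ (Set.range fun k => ((ν k : R.H j) : A)) := by
    intro a ha
    exact span_rat_le (mem_span_basis _ N0 ν (x := ⟨a, hN ha⟩) ha)
  have h9 : m y2 ∈ Submodule.span ℂ (Set.range fun k => ((ν k : R.H j) : A)) :=
    (Submodule.span_le.2 h6) h5
  rw [Submodule.mem_span_range_iff_exists_fun] at h2 h9
  obtain ⟨c, rfl⟩ := h2
  obtain ⟨e, he⟩ := h9
  rw [Fintype.linearIndependent_iff] at huC
  have h11 := huC (Sum.elim c (fun k => -e k)) (by
    rw [Fintype.sum_sum_type]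
    simp only [Sum.elim_inl, Sum.elim_inr, neg_smul, Finset.sum_neg_distrib]
    rw [he, map_sum, add_neg_eq_zero]
    refine Finset.sum_congr rfl fun i _ => ?_
    rw [map_smul]
    rfl)
  have h12 : ∀ i, c i = 0 := fun i => h11 (Sum.inl i)
  simp only [h12, zero_smul, Finset.sum_const_zero, add_zero]
  exact h1

theorem IsMor.comap_coniveau (hm : IsMor R S j m) (hinj : ∀ b ∈ Y.H 0 j, m b = 0 → b = 0)
    {b : B} (hb : b ∈ S.H j) (h : m b ∈ R.coniveau j) : b ∈ S.coniveau j := by
  obtain ⟨h1, h2, h3⟩ := R.coniveau_spec j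
  rw [isSubHodge_iff] at h2
  let V : Submodule ℚ B := S.H j ⊓ (R.coniveau j).comap (m.restrictScalars ℚ)
  have hV : (V : Set B) = {b | b ∈ S.H j ∧ m b ∈ R.coniveau j} := rfl
  have hle : V ≤ S.coniveau j := by
    refine S.le_coniveau inf_le_left ?_ ?_
    · intro v hv p q
      rw [hV]
      refine hm.span_comap h1 ?_ ?_
      · rw [S.span j]
        by_cases hpq : p + q = j
        · exact mem_degree Y hpq (proj_mem Y p q v)
        · rw [proj_degree hpq (S.le_degree hv.1)]
          exact Submodule.zero_mem _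
      · rw [← hm.proj (S.le_degree hv.1)]
        exact h2 _ hv.2 p q
    · intro v hv
      refine hinj _ (proj_mem Y 0 j v) ?_
      rw [← hm.proj (S.le_degree hv.1)]
      exact h3 _ hv.2
  exact hle ⟨hb, h⟩

theorem finrank_quot_le (hm : IsMor R S j m) (hinj : ∀ b ∈ Y.H 0 j, m b = 0 → b = 0) :
    finrank ℚ (S.H j ⧸ (S.coniveau j).comap (S.H j).subtype) ≤
      finrank ℚ (R.H j ⧸ (R.coniveau j).comap (R.H j).subtype) := by
  have := S.finite j
  have := R.finite j
  let mQ : S.H j →ₗ[ℚ] R.H j := LinearMap.codRestrict (R.H j)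
    ((m.restrictScalars ℚ).domRestrict (S.H j)) (fun b => hm.rational b b.2)
  let D := (R.coniveau j).comap (R.H j).subtype
  let E := (S.coniveau j).comap (S.H j).subtype
  let g : S.H j →ₗ[ℚ] (R.H j ⧸ D) := D.mkQ ∘ₗ mQ
  have hker : LinearMap.ker g ≤ E := by
    intro b hb
    have h1 : mQ b ∈ D := (Submodule.Quotient.mk_eq_zero D).1 hb
    exact hm.comap_coniveau hinj b.2 h1
  have f1 := LinearMap.finrank_range_add_finrank_ker g
  have f2 := Submodule.finrank_mono hker
  have f3 := Submodule.finrank_le (LinearMap.range g)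
  have f4 := Submodule.finrank_quotient_add_finrank E
  show finrank ℚ (S.H j ⧸ E) ≤ finrank ℚ (R.H j ⧸ D)
  omega

/-- two morphisms which are injective on `H^{0,j}` -/
theorem formsIso_of {m' : A →ₗ[ℂ] B} (hm : IsMor R S j m)
    (hinj : ∀ b ∈ Y.H 0 j, m b = 0 → b = 0) (hm' : IsMor S R j m')
    (hinj' : ∀ a ∈ X.H 0 j, m' a = 0 → a = 0) : FormsIso R S j := by
  have h1 := finrank_quot_le hm' hinj'
  have := S.finite j
  have := R.finite j
  refine ⟨m, hm, fun b hb => ⟨fun h => hm.comap_coniveau hinj hb h, fun h =>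
    hm.map_coniveau h⟩, ?_⟩
  let mQ : S.H j →ₗ[ℚ] R.H j := LinearMap.codRestrict (R.H j)
    ((m.restrictScalars ℚ).domRestrict (S.H j)) (fun b => hm.rational b b.2)
  let D := (R.coniveau j).comap (R.H j).subtype
  let E := (S.coniveau j).comap (S.H j).subtype
  let g : S.H j →ₗ[ℚ] (R.H j ⧸ D) := D.mkQ ∘ₗ mQ
  have hker : LinearMap.ker g ≤ E := by
    intro b hb
    have h1 : mQ b ∈ D := (Submodule.Quotient.mk_eq_zero D).1 hb
    exact hm.comap_coniveau hinj b.2 h1
  have f1 := LinearMap.finrank_range_add_finrank_ker g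
  have f2 := Submodule.finrank_mono hker
  have f3 := Submodule.finrank_le (LinearMap.range g)
  have f4 := Submodule.finrank_quotient_add_finrank E
  have h1' : finrank ℚ (R.H j ⧸ D) ≤ finrank ℚ (S.H j ⧸ E) := h1
  have hrange : LinearMap.range g = ⊤ := by
    apply Submodule.eq_top_of_finrank_eq
    omega
  intro a ha
  obtain ⟨b, hb⟩ := LinearMap.range_eq_top.1 hrange (D.mkQ ⟨a, ha⟩)
  refine ⟨b, b.2, ?_⟩
  have h4 : D.mkQ (⟨a, ha⟩ - mQ b) = 0 := by
    rw [map_sub, ← hb]
    exact sub_self _
  exact (Submodule.Quotient.mk_eq_zero D).1 h4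

end

end Pool.Agent.Hodge7
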