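import Pool.Agent.Helper7.PN.Main

/-!
# Rational structures: rational independence is complex independence
-/

set_option autoImplicit false

namespace Pool.Agent.Hodge7

open Pool.Agent.Hodge81 Module Complex

section

variable {n : ℕ} {A B : Type*} [Ring A] [Algebra ℂ A] [Module ℚ A] [FiniteDimensional ℂ A]
  [Ring B] [Algebra ℂ B] [Module ℚ B] {X : HodgeRing n A} {Y : HodgeRing n B}

omit [FiniteDimensional ℂ A] in
/-- a rational basis of `H^j(X, ℚ)` is independent over the complex numbers -/
theorem RationalCohomology.basis_indep (R : RationalCohomology X) {j : ℕ} {ι : Type*}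
    (b : Basis ι ℚ (R.H j)) : LinearIndependent ℂ (fun i => (b i : A)) := by
  classical
  have := R.finite j
  have : Fintype ι := FiniteDimensional.fintypeBasisIndex b
  let v : ι → degree X j := fun i => ⟨b i, R.le_degree (b i).2⟩
  have h1 : LinearIndependent ℂ v := by
    refine linearIndependent_of_top_le_span_of_card_eq_finrank ?_ ?_
    · rintro ⟨a, ha⟩ -
      have h2 : ∀ a ∈ degree X j, ∃ a' ∈ Submodule.span ℂ (Set.range v), (a' : A) = a := by
        intro a ha
        rw [← R.span j] at ha
        induction ha using Submodule.span_induction with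
        | mem a ha =>
          have h3 : (⟨a, ha⟩ : R.H j) ∈ Submodule.span ℚ (Set.range b) := by
            rw [b.span_eq]
            exact Submodule.mem_top
          have h4 : ∀ x : R.H j, x ∈ Submodule.span ℚ (Set.range b) →
              ∃ a' ∈ Submodule.span ℂ (Set.range v), (a' : A) = x := by
            intro x hx
            induction hx using Submodule.span_induction with
            | mem x hx =>
              obtain ⟨i, rfl⟩ := hx
              exact ⟨v i, Submodule.subset_span ⟨i, rfl⟩, rfl⟩
            | zero => exact ⟨0, Submodule.zero_mem _, rfl⟩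
            | add x y _ _ hx hy =>
              obtain ⟨x', h1, h2⟩ := hx
              obtain ⟨y', h3, h4⟩ := hy
              exact ⟨x' + y', Submodule.add_mem _ h1 h3, by
                rw [Submodule.coe_add, Submodule.coe_add, h2, h4]⟩
            | smul q x _ hx =>
              obtain ⟨x', h1, h2⟩ := hx
              refine ⟨(q : ℂ) • x', Submodule.smul_mem _ _ h1, ?_⟩
              rw [Submodule.coe_smul, Submodule.coe_smul, h2, Rat.cast_smul_eq_qsmul]
          exact h4 _ h3
        | zero => exact ⟨0, Submodule.zero_mem _, rfl⟩
        | add x y _ _ hx hy =>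
          obtain ⟨x', h1, h2⟩ := hx
          obtain ⟨y', h3, h4⟩ := hy
          exact ⟨x' + y', Submodule.add_mem _ h1 h3, by rw [Submodule.coe_add, h2, h4]⟩
        | smul c x _ hx =>
          obtain ⟨x', h1, h2⟩ := hx
          exact ⟨c • x', Submodule.smul_mem _ _ h1, by rw [Submodule.coe_smul, h2]⟩
      obtain ⟨a', h3, h4⟩ := h2 a ha
      have h5 : a' = ⟨a, ha⟩ := Subtype.ext h4
      rw [← h5]
      exact h3
    · rw [← R.finrank_eq j, finrank_eq_card_basis b]
  exact h1.map' (degree X j).subtype (Submodule.ker_subtype _)

omit [FiniteDimensional ℂ A] in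
/-- rational independence is complex independence -/
theorem RationalCohomology.indep (R : RationalCohomology X) {j : ℕ} {ι : Type*}
    {v : ι → R.H j} (hv : LinearIndependent ℚ v) : LinearIndependent ℂ (fun i => (v i : A)) := by
  classical
  let f : ι → hv.linearIndepOn_id.extend (Set.subset_univ _) := fun i =>
    ⟨v i, hv.linearIndepOn_id.subset_extend _ ⟨i, rfl⟩⟩
  have hf : Function.Injective f := by
    intro i k hik
    exact hv.injective (congrArg Subtype.val hik)
  have h1 := (R.basis_indep (Basis.extend hv.linearIndepOn_id)).comp f hf
  have h3 : (fun i => (v i : A)) =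
      (fun i => ((Basis.extend hv.linearIndepOn_id) i : A)) ∘ f := by
    funext i
    show (v i : A) = ((Basis.extend hv.linearIndepOn_id) (f i) : A)
    rw [Basis.extend_apply_self]
  rw [h3]
  exact h1

end

end Pool.Agent.Hodge7
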